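import Pool.Agent.MP_64f7e5_co.Main

namespace Pool.Agent.Results.MP_64f7e5_co.MaxDiameter

open Pool.Agent.MP_64f7e5_co

/-- For every `k ≥ 7` the maximum diameter of a connected `k_t`VC graph is `⌊(5 k - 7) / 3⌋`. -/
theorem result (k : ℕ) (hk : 7 ≤ k) :
    IsGreatest {d | ∃ (V : Type) (_ : Finite V) (G : SimpleGraph V),
      G.Connected ∧ IsTVC G k ∧ G.diam = d} ((5 * k - 7) / 3) := main k hk

end Pool.Agent.Results.MP_64f7e5_co.MaxDiameter
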